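import Pool.Agent.K1H79.TW.Stm

/-! # Project TW (helper79), piece D: comparison of the residues -/

set_option autoImplicit false

namespace Pool.Agent.K1H13.TW

open Pool.Agent.K1H79.TW
open NumberField IsDedekindDomain

/-- choice of `ε'` and `k`, real numbers only -/
theorem choice (A ε : ℝ) (hA : 0 < A) (hε : 0 < ε) :
    ∃ e : ℝ, 0 < e ∧ e ≤ 1 / 8 ∧ ∀ c M : ℝ, 0 < c → 0 < M → ∃ C : ℝ, 0 < C ∧
      ∀ D : ℝ, 1 ≤ D → ∃ k : ℕ, M * D ^ A * (8 / 11 : ℝ) ^ k ≤ c / 2 / √D ∧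
        1 / (1 - e) ^ (k + 1) ≤ C * D ^ ε := by
  have hl : 0 < Real.log (11 / 8) := Real.log_pos (by norm_num)
  set ℓ := Real.log (11 / 8) with hℓ
  have hA2 : 0 < A + 1 / 2 := by linarith
  set lam := ε * ℓ / (A + 1 / 2) with hlam
  have hlam0 : 0 < lam := by positivity
  have hexp : Real.exp (-lam) < 1 := by
    rw [Real.exp_lt_one_iff]
    linarith
  refine ⟨min (1 / 8) (1 - Real.exp (-lam)), ?_, min_le_left _ _, ?_⟩
  · exact lt_min (by norm_num) (by linarith)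
  set e := min (1 / 8 : ℝ) (1 - Real.exp (-lam)) with he
  have he0 : 0 < e := lt_min (by norm_num) (by linarith)
  have he1 : e ≤ 1 / 8 := min_le_left _ _
  have he2 : Real.exp (-lam) ≤ 1 - e := by
    have : e ≤ 1 - Real.exp (-lam) := min_le_right _ _
    linarith
  have h1e : 0 < 1 - e := by linarith
  intro c M hc hM
  set M' := max 1 (2 * M / c) with hM'
  have hM1 : 1 ≤ M' := le_max_left _ _
  have hM2 : 2 * M / c ≤ M' := le_max_right _ _
  have hM0 : 0 < M' := by linarith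
  refine ⟨Real.exp (2 * lam + lam * Real.log M' / ℓ), Real.exp_pos _, ?_⟩
  intro D hD
  have hD0 : 0 < D := by linarith
  have hlD : 0 ≤ Real.log D := Real.log_nonneg hD
  have hlM : 0 ≤ Real.log M' := Real.log_nonneg hM1
  set L := (Real.log M' + (A + 1 / 2) * Real.log D) / ℓ with hL
  have hL0 : 0 ≤ L := by positivity
  refine ⟨⌈L⌉₊, ?_, ?_⟩
  · have h1 : (8 / 11 : ℝ) ^ ⌈L⌉₊ ≤ Real.exp (-(L * ℓ)) := by
      have h2 : (8 / 11 : ℝ) = Real.exp (-ℓ) := by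
        rw [Real.exp_neg, hℓ, Real.exp_log (by norm_num)]
        norm_num
      rw [h2, ← Real.exp_nat_mul]
      refine Real.exp_le_exp.2 ?_
      have h3 := Nat.le_ceil L
      nlinarith
    have h4 : L * ℓ = Real.log M' + (A + 1 / 2) * Real.log D := by
      rw [hL]
      field_simp
    rw [h4] at h1
    have h5 : Real.exp (-(Real.log M' + (A + 1 / 2) * Real.log D)) =
        M'⁻¹ * (D ^ A)⁻¹ * (√D)⁻¹ := by
      rw [Real.sqrt_eq_rpow, Real.rpow_def_of_pos hD0, Real.rpow_def_of_pos hD0, ← Real.exp_neg,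
        ← Real.exp_neg]
      nth_rewrite 2 [← Real.exp_log hM0]
      rw [← Real.exp_neg, ← Real.exp_add, ← Real.exp_add]
      congr 1
      ring
    rw [h5] at h1
    have hDA : 0 < D ^ A := Real.rpow_pos_of_pos hD0 A
    have hsD : 0 < √D := Real.sqrt_pos.2 hD0
    calc M * D ^ A * (8 / 11 : ℝ) ^ ⌈L⌉₊ ≤ M * D ^ A * (M'⁻¹ * (D ^ A)⁻¹ * (√D)⁻¹) :=
          mul_le_mul_of_nonneg_left h1 (by positivity)
      _ = M * M'⁻¹ / √D := by field_simp
      _ ≤ c / 2 / √D := by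
          refine div_le_div_of_nonneg_right ?_ hsD.le
          rw [← div_eq_mul_inv, div_le_iff₀ hM0]
          rw [div_le_iff₀ hc] at hM2
          linarith
  · have h1 : 1 / (1 - e) ^ (⌈L⌉₊ + 1) ≤ Real.exp (lam * (⌈L⌉₊ + 1)) := by
      have h2 : Real.exp (-lam) ^ (⌈L⌉₊ + 1) ≤ (1 - e) ^ (⌈L⌉₊ + 1) :=
        pow_le_pow_left₀ (Real.exp_pos _).le he2 _
      have h3 : Real.exp (-lam) ^ (⌈L⌉₊ + 1) = (Real.exp (lam * (⌈L⌉₊ + 1)))⁻¹ := by
        rw [← Real.exp_nat_mul, ← Real.exp_neg]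
        congr 1
        push_cast
        ring
      rw [h3] at h2
      rw [one_div]
      exact inv_le_of_inv_le₀ (Real.exp_pos _) h2
    refine h1.trans ?_
    rw [Real.rpow_def_of_pos hD0, ← Real.exp_add]
    refine Real.exp_le_exp.2 ?_
    have h4 := (Nat.ceil_lt_add_one hL0).le
    have h5 : lam * ((⌈L⌉₊ : ℝ) + 1) ≤ lam * (L + 2) := by
      refine mul_le_mul_of_nonneg_left ?_ hlam0.le
      linarith
    refine h5.trans (le_of_eq ?_)
    rw [hL, hlam]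
    field_simp
    ring

theorem t_RHOof : S_RHOof := by
  intro hZB hTC hDOM hLOW n ε hε
  obtain ⟨C1, A, hC1, hA, hZ⟩ := hZB n
  obtain ⟨e, he0, he8, hch⟩ := choice A ε hA hε
  obtain ⟨C2, hC2, hdom⟩ := hDOM n e he0
  obtain ⟨c, hc, hlow⟩ := hLOW n
  obtain ⟨C, hC, hch⟩ := hch c (4 * C1 * (1 + C2)) hc (by positivity)
  refine ⟨2 * (C2 * C), by positivity, ?_⟩
  intro E K _ _ _ _ _ hn
  have hEn : Module.finrank ℚ E ≤ n := by
    rw [← hn]
    have h := Module.finrank_mul_finrank ℚ E K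
    rw [← h]
    exact Nat.le_mul_of_pos_right _ Module.finrank_pos
  have hDE : |(discr E : ℝ)| ≤ |(discr K : ℝ)| := by
    have h := Int.natAbs_dvd_natAbs.2 (discr_dvd_discr E K)
    have h2 := Nat.le_of_dvd (Int.natAbs_pos.2 (discr_ne_zero K)) h
    have h3 : ((discr E).natAbs : ℝ) ≤ ((discr K).natAbs : ℝ) := by exact_mod_cast h2
    rwa [Nat.cast_natAbs, Nat.cast_natAbs, Int.cast_abs, Int.cast_abs] at h3
  have hDE1 : 1 ≤ |(discr E : ℝ)| := by
    have h := Int.one_le_abs (discr_ne_zero E)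
    exact_mod_cast h
  set D := |(discr K : ℝ)| with hD
  have hD1 : 1 ≤ D := hDE1.trans hDE
  obtain ⟨k, hk1, hk2⟩ := hch D hD1
  obtain ⟨gK, a1, a2, a3, a4⟩ := hZ K hn.le
  obtain ⟨gE, b1, b2, b3, b4⟩ := hZ E hEn
  have hrK : ∀ m, 0 ≤ rr K m := fun m => by unfold rr; positivity
  have hrE : ∀ m, 0 ≤ rr E m := fun m => by unfold rr; positivity
  obtain ⟨sK, tK⟩ := hTC gK (rr K) _ _ a1 hrK a2 a3 a4 2 k (by norm_num) le_rfl
  obtain ⟨sE, tE⟩ := hTC gE (rr E) _ _ b1 hrE b2 b3 b4 (2 - e) k (by linarith) (by linarith)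
  have hf : (0 : ℝ) < (k.factorial : ℝ) := by exact_mod_cast k.factorial_pos
  have hDA : |(discr E : ℝ)| ^ A ≤ D ^ A := Real.rpow_le_rpow (by positivity) hDE hA.le
  have hr : (0 : ℝ) ≤ (8 / 11 : ℝ) ^ k := by positivity
  have hcmp : (∑' m : ℕ, rr K m * (m : ℝ) ^ (-(2 : ℝ)) * Real.log m ^ k) ≤
      C2 * ∑' m : ℕ, rr E m * (m : ℝ) ^ (-(2 - e)) * Real.log m ^ k := by
    rw [← tsum_mul_left]
    refine Summable.tsum_le_tsum (fun m => ?_) sK (sE.mul_left C2)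
    rcases Nat.eq_zero_or_pos m with rfl | hm
    · have h1 : ((0 : ℕ) : ℝ) ^ (-(2 : ℝ)) = 0 := by
        rw [Nat.cast_zero]
        exact Real.zero_rpow (by norm_num)
      have h2 : ((0 : ℕ) : ℝ) ^ (-(2 - e)) = 0 := by
        rw [Nat.cast_zero]
        exact Real.zero_rpow (by linarith)
      rw [h1, h2]
      simp
    · have hm0 : (0 : ℝ) < m := by exact_mod_cast hm
      have h1 := hdom E K hn m hm
      have h2 : (m : ℝ) ^ (-(2 - e)) = (m : ℝ) ^ e * (m : ℝ) ^ (-(2 : ℝ)) := by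
        rw [← Real.rpow_add hm0]
        congr 1
        ring
      have h3 : 0 ≤ Real.log (m : ℝ) ^ k := pow_nonneg (Real.log_natCast_nonneg m) k
      have h4 : 0 ≤ (m : ℝ) ^ (-(2 : ℝ)) := by positivity
      rw [h2]
      calc rr K m * (m : ℝ) ^ (-(2 : ℝ)) * Real.log m ^ k
          ≤ (C2 * (m : ℝ) ^ e * rr E m) * (m : ℝ) ^ (-(2 : ℝ)) * Real.log m ^ k :=
            mul_le_mul_of_nonneg_right (mul_le_mul_of_nonneg_right h1 h4) h3
        _ = C2 * (rr E m * ((m : ℝ) ^ e * (m : ℝ) ^ (-(2 : ℝ))) * Real.log m ^ k) := by ring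
  have h1 := (abs_le.1 tK).1
  have h2 := (abs_le.1 tE).2
  have e1 : (2 : ℝ) - 1 = 1 := by norm_num
  have e2 : (2 - e) - 1 = 1 - e := by ring
  rw [e1, one_pow, div_one] at h1
  rw [e2] at h2
  set SK := ∑' m : ℕ, rr K m * (m : ℝ) ^ (-(2 : ℝ)) * Real.log m ^ k
  set SE := ∑' m : ℕ, rr E m * (m : ℝ) ^ (-(2 - e)) * Real.log m ^ k
  set ρK := dedekindZeta_residue K with hρK
  set ρE := dedekindZeta_residue E with hρE
  have hρE0 : 0 < ρE := dedekindZeta_residue_pos E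
  have h3 : SK / (k.factorial : ℝ) ≤ C2 * (SE / (k.factorial : ℝ)) := by
    rw [← mul_div_assoc]
    exact div_le_div_of_nonneg_right hcmp hf.le
  have h4 : 4 * (C1 * |(discr E : ℝ)| ^ A) * (8 / 11 : ℝ) ^ k ≤ 4 * (C1 * D ^ A) * (8 / 11) ^ k := by
    refine mul_le_mul_of_nonneg_right ?_ hr
    have := mul_le_mul_of_nonneg_left hDA hC1.le
    linarith
  have h5 : SE / (k.factorial : ℝ) ≤ ρE / (1 - e) ^ (k + 1) + 4 * (C1 * D ^ A) * (8 / 11) ^ k := by
    linarith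
  have h6 := mul_le_mul_of_nonneg_left h5 hC2.le
  have h7 : ρK ≤ C2 * (ρE / (1 - e) ^ (k + 1)) + 4 * C1 * (1 + C2) * D ^ A * (8 / 11) ^ k := by
    have h8 : 4 * C1 * (1 + C2) * D ^ A * (8 / 11 : ℝ) ^ k =
      4 * (C1 * D ^ A) * (8 / 11) ^ k + C2 * (4 * (C1 * D ^ A) * (8 / 11) ^ k) := by ring
    rw [h8]
    linarith
  have hsD : 0 < √D := Real.sqrt_pos.2 (by linarith)
  have h9 : c / 2 / √D ≤ ρK / 2 := by
    rw [div_le_iff₀ hsD]
    have := hlow K hn.le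
    linarith
  have h10 : ρE / (1 - e) ^ (k + 1) ≤ C * D ^ ε * ρE := by
    have := mul_le_mul_of_nonneg_right hk2 hρE0.le
    rw [one_div_mul_eq_div] at this
    exact this
  have h11 := mul_le_mul_of_nonneg_left h10 hC2.le
  linarith

end Pool.Agent.K1H13.TW
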